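import Mathlib
import Pool.Agent.X142.BRW

/-!
A translation invariant branching random walk on `ℤ` with almost sure extinction in every single
site, two extinction probability vectors, and uncountably many fixed points.
-/

open MeasureTheory ProbabilityTheory Finset
open scoped ENNReal NNReal

namespace Pool.Agent.Results.MP_c15531_pr.TranslationInvariant

open X142.BRW

/-- `γ` is an automorphism of the branching random walk: `μ_{γx}(f ∘ γ⁻¹) = μ_x(f)`. -/
def IsAut {X : Type} (μ : X → PMF (X →₀ ℕ)) (γ : Equiv.Perm X) : Prop :=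
  ∀ x f, μ (γ x) (Finsupp.equivMapDomain γ f) = μ x f

/-- The automorphism group has finitely many orbits. -/
def QuasiTransitive {X : Type} (μ : X → PMF (X →₀ ℕ)) : Prop :=
  ∃ F : Finset X, ∀ x, ∃ y ∈ F, ∃ γ : Equiv.Perm X, IsAut μ γ ∧ γ y = x

/-- The class `C`: irreducible, quasi-transitive, almost sure extinction in every single site. -/
def InC {X : Type} (μ : X → PMF (X →₀ ℕ)) : Prop :=
  IrreducibleBRW μ ∧ QuasiTransitive μ ∧ ∀ x y, extProb μ {y} x = 1

lemma p_le_one : (2 / 25 : ℝ≥0) ≤ 1 := by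
  rw [div_le_iff₀ (by norm_num)]; norm_num

/-- The offspring configuration of a particle at `x`. -/
noncomputable def conf (x : ℤ) (b : Bool) : ℤ →₀ ℕ :=
  Finsupp.single (x + 1) 2 + Finsupp.single (x - 1) (if b then 1 else 0)

/-- A particle at `x` has two children at `x+1` and, with probability `2/25`, one at `x-1`. -/
noncomputable def mu (x : ℤ) : PMF (ℤ →₀ ℕ) :=
  (PMF.bernoulli (2 / 25) p_le_one).map (conf x)

lemma conf_inj (x : ℤ) : Function.Injective (conf x) := by
  intro b b' h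
  have h1 := DFunLike.congr_fun h (x - 1)
  have hne : x + 1 ≠ x - 1 := by omega
  simp only [conf, Finsupp.add_apply, Finsupp.single_apply, if_neg hne, if_true, zero_add] at h1
  cases b <;> cases b' <;> simp_all

lemma tsum_map {α β : Type} (p : PMF α) (g : α → β) (hg : Function.Injective g) (F : β → ℝ) :
    ∑' f, ((p.map g) f).toReal * F f = ∑' a, (p a).toReal * F (g a) := by
  classical
  have h1 : ∀ a, (p.map g) (g a) = p a := by
    intro a
    rw [PMF.map_apply, tsum_eq_single a]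
    · simp
    · intro b hb
      rw [if_neg]
      exact fun h => hb (hg h).symm
  have h2 : ∀ f, f ∉ Set.range g → (p.map g) f = 0 := by
    intro f hf
    rw [PMF.map_apply, ENNReal.tsum_eq_zero]
    intro a
    rw [if_neg]
    rintro rfl
    exact hf ⟨a, rfl⟩
  rw [← hg.tsum_eq (f := fun f => ((p.map g) f).toReal * F f)]
  · simp only [h1]
  · intro f hf
    by_contra hcon
    apply hf
    show ((p.map g) f).toReal * F f = 0
    rw [h2 f hcon]
    simp

lemma genFun_eq (z : ℤ → ℝ) (x : ℤ) :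
    genFun mu z x = z (x + 1) ^ 2 * (1 - 2 / 25 + 2 / 25 * z (x - 1)) := by
  unfold genFun mu
  rw [tsum_map _ _ (conf_inj x), tsum_fintype, Fintype.sum_bool]
  have h : ∀ b, (conf x b).prod (fun y n => z y ^ n) =
      z (x + 1) ^ 2 * z (x - 1) ^ (if b then 1 else 0) := by
    intro b
    unfold conf
    rw [Finsupp.prod_add_index' (by simp) (by intro a b c; rw [pow_add]),
      Finsupp.prod_single_index (by simp), Finsupp.prod_single_index (by simp)]
  rw [h, h]
  have ht : ((PMF.bernoulli (2 / 25) p_le_one) true).toReal = 2 / 25 := by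
    rw [PMF.bernoulli_apply]; simp
  have hf : ((PMF.bernoulli (2 / 25) p_le_one) false).toReal = 1 - 2 / 25 := by
    rw [PMF.bernoulli_apply]
    simp only [cond_false]
    rw [ENNReal.coe_toReal, NNReal.coe_sub p_le_one]
    simp
  rw [ht, hf]
  simp
  ring

lemma map_ne_zero {α β : Type} (p : PMF α) (g : α → β) (a : α) (h : p a ≠ 0) :
    (p.map g) (g a) ≠ 0 := by
  rw [← PMF.mem_support_iff, PMF.mem_support_map_iff]
  exact ⟨a, (PMF.mem_support_iff _ _).mpr h, rfl⟩

lemma mu_mass (x : ℤ) : mu x (conf x true) ≠ 0 := by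
  apply map_ne_zero
  rw [PMF.bernoulli_apply]
  simp

lemma mu_ne {x : ℤ} {f : ℤ →₀ ℕ} (h : mu x f ≠ 0) : ∃ b, f = conf x b := by
  rw [← PMF.mem_support_iff] at h
  unfold mu at h
  rw [PMF.mem_support_map_iff] at h
  obtain ⟨b, _, rfl⟩ := h
  exact ⟨b, rfl⟩

lemma meanOffspring_pos {x y : ℤ} {f : ℤ →₀ ℕ} (hf : mu x f ≠ 0) (hy : f y ≠ 0) :
    0 < meanOffspring mu x y := by
  unfold meanOffspring
  rw [pos_iff_ne_zero]
  intro h
  rw [ENNReal.tsum_eq_zero] at h
  have := h f
  rw [mul_eq_zero] at this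
  rcases this with h1 | h1
  · exact hy (by exact_mod_cast h1)
  · exact hf h1

lemma irreducible : IrreducibleBRW mu := by
  have s1 : ∀ x, 0 < meanOffspring mu x (x + 1) := fun x =>
    meanOffspring_pos (mu_mass x) (by simp [conf])
  have s2 : ∀ x, 0 < meanOffspring mu x (x - 1) := fun x =>
    meanOffspring_pos (mu_mass x) (by simp [conf])
  have h1 : ∀ (x : ℤ) (n : ℕ),
      Relation.ReflTransGen (fun a b => 0 < meanOffspring mu a b) x (x + n) := by
    intro x n
    induction n with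
    | zero => simp only [Nat.cast_zero, add_zero]; exact Relation.ReflTransGen.refl
    | succ n ih =>
      have := s1 (x + n)
      rw [show x + ((n + 1 : ℕ) : ℤ) = x + n + 1 by push_cast; ring]
      exact ih.tail this
  have h2 : ∀ (x : ℤ) (n : ℕ),
      Relation.ReflTransGen (fun a b => 0 < meanOffspring mu a b) x (x - n) := by
    intro x n
    induction n with
    | zero => simp only [Nat.cast_zero, sub_zero]; exact Relation.ReflTransGen.refl
    | succ n ih =>
      have := s2 (x - n)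
      rw [show x - ((n + 1 : ℕ) : ℤ) = x - n - 1 by push_cast; ring]
      exact ih.tail this
  intro x y
  rcases le_total x y with h | h
  · obtain ⟨n, hn⟩ := Int.eq_ofNat_of_zero_le (sub_nonneg.mpr h)
    have := h1 x n
    rwa [show x + (n : ℤ) = y by omega] at this
  · obtain ⟨n, hn⟩ := Int.eq_ofNat_of_zero_le (sub_nonneg.mpr h)
    have := h2 x n
    rwa [show x - (n : ℤ) = y by omega] at this

lemma isAut_translation (a : ℤ) : IsAut mu (Equiv.addRight a) := by
  classical
  intro x f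
  unfold mu
  rw [PMF.map_apply, PMF.map_apply]
  congr 1
  ext b
  have h : conf ((Equiv.addRight a) x) b = Finsupp.equivMapDomain (Equiv.addRight a) (conf x b) := by
    unfold conf
    rw [Finsupp.equivMapDomain_eq_mapDomain, Finsupp.mapDomain_add, Finsupp.mapDomain_single,
      Finsupp.mapDomain_single]
    simp only [Equiv.coe_addRight]
    rw [show x + a + 1 = x + 1 + a by ring, show x + a - 1 = x - 1 + a by ring]
  rw [h]
  have hinj : Finsupp.equivMapDomain (Equiv.addRight a) f =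
      Finsupp.equivMapDomain (Equiv.addRight a) (conf x b) ↔ f = conf x b := by
    rw [Finsupp.equivMapDomain_eq_mapDomain, Finsupp.equivMapDomain_eq_mapDomain]
    exact (Finsupp.mapDomain_injective (Equiv.addRight a).injective).eq_iff
  by_cases hfc : f = conf x b
  · rw [if_pos hfc, if_pos (hinj.mpr hfc)]
  · rw [if_neg hfc, if_neg (fun h => hfc (hinj.mp h))]

lemma quasiTransitive : QuasiTransitive mu :=
  ⟨{0}, fun x => ⟨0, by simp, Equiv.addRight x, isAut_translation x, by simp⟩⟩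

section extinction

/-- The set `A` is unbounded above: no extinction in `A`. -/
lemma extProb_zero {A : Set ℤ} (hA : ∀ m : ℤ, ∃ y ∈ A, m ≤ y) (x₀ : ℤ) : extProb mu A x₀ = 0 := by
  have h1 : ∀ᵐ ξ ∂(offspringLaw mu), ∀ n x j, ξ (n, x, j) (x + 1) ≠ 0 := by
    have h := ae_offspring mu (fun x f => f (x + 1) ≠ 0) (by
      intro x f hf
      obtain ⟨b, rfl⟩ := mu_ne hf
      simp [conf])
    exact h
  unfold extProb
  rw [measureReal_def, (ENNReal.toReal_eq_zero_iff _)]
  left
  have : ∀ᵐ ξ ∂(offspringLaw mu),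
      ¬ ∃ N : ℕ, ∀ n, N ≤ n → ∀ y ∈ A, population ξ x₀ n y = 0 := by
    filter_upwards [h1] with ξ hξ
    have h2 : ∀ n : ℕ, population ξ x₀ n (x₀ + n) ≠ 0 := by
      intro n
      induction n with
      | zero => simp [population]
      | succ n ih =>
        have h3 := le_population_succ ξ x₀ n (x₀ + n) (x₀ + n + 1) (j := 0) (by omega)
        have h4 := hξ n (x₀ + n) 0
        rw [show x₀ + ((n + 1 : ℕ) : ℤ) = x₀ + n + 1 by push_cast; ring]
        omega
    rintro ⟨N, hN⟩
    obtain ⟨y, hy, hy2⟩ := hA (x₀ + N)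
    have h5 := hN (y - x₀).toNat (by omega) y hy
    have h6 := h2 (y - x₀).toNat
    rw [show x₀ + (((y - x₀).toNat : ℕ) : ℤ) = y by omega] at h6
    exact h6 h5
  rw [ae_iff] at this
  simpa using this

/-- The weight `5^{-y}`. -/
noncomputable def hfun (y : ℤ) : ℝ≥0∞ := ENNReal.ofReal ((1 / 5 : ℝ) ^ y)

lemma hfun_succ (x : ℤ) : hfun (x + 1) = ENNReal.ofReal (1 / 5) * hfun x := by
  unfold hfun
  rw [zpow_add₀ (by norm_num), zpow_one, mul_comm, ENNReal.ofReal_mul (by norm_num)]

lemma hfun_pred (x : ℤ) : hfun (x - 1) = ENNReal.ofReal 5 * hfun x := by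
  unfold hfun
  rw [zpow_sub₀ (by norm_num), zpow_one, ← ENNReal.ofReal_mul (by norm_num)]
  congr 1
  ring

lemma meanWt_hfun (x : ℤ) : meanWt mu hfun x = ENNReal.ofReal (4 / 5) * hfun x := by
  have h1 : meanWt mu hfun x = ∑' b : Bool, wt hfun (conf x b) *
      PMF.bernoulli (2 / 25) p_le_one b := by
    unfold meanWt mu
    have hg : Measurable (conf x) := measurable_of_countable _
    rw [← PMF.toMeasure_map _ _ hg, lintegral_map (measurable_of_countable _) hg,
      lintegral_countable']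
    congr 1
    ext a
    rw [PMF.toMeasure_apply_singleton _ _ (measurableSet_singleton _)]
  rw [h1, tsum_fintype, Fintype.sum_bool]
  have h2 : ∀ b, wt hfun (conf x b) = 2 * hfun (x + 1) + (if b then 1 else 0) * hfun (x - 1) := by
    intro b
    unfold conf
    rw [wt_add, wt_single, wt_single]
    congr 1
    cases b <;> simp
  have ht : (PMF.bernoulli (2 / 25) p_le_one) true = ENNReal.ofReal (2 / 25) := by
    rw [PMF.bernoulli_apply, ← ENNReal.ofReal_coe_nnreal]
    simp
  have hf : (PMF.bernoulli (2 / 25) p_le_one) false = ENNReal.ofReal (23 / 25) := by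
    rw [PMF.bernoulli_apply, ← ENNReal.ofReal_coe_nnreal]
    simp only [cond_false]
    rw [NNReal.coe_sub p_le_one]
    congr 1
    simp
    norm_num
  rw [h2, h2, ht, hf, hfun_succ, hfun_pred]
  have e2 : (2 : ℝ≥0∞) = ENNReal.ofReal 2 := by simp
  simp only [if_true, one_mul]
  have e0 : (if false = true then (1 : ℝ≥0∞) else 0) = 0 := by simp
  rw [e0, zero_mul, add_zero, e2]
  have e3 : (ENNReal.ofReal 2 * (ENNReal.ofReal (1 / 5) * hfun x) + ENNReal.ofReal 5 * hfun x) *
        ENNReal.ofReal (2 / 25) +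
      ENNReal.ofReal 2 * (ENNReal.ofReal (1 / 5) * hfun x) * ENNReal.ofReal (23 / 25) =
      ((ENNReal.ofReal 2 * ENNReal.ofReal (1 / 5) + ENNReal.ofReal 5) * ENNReal.ofReal (2 / 25) +
        ENNReal.ofReal 2 * ENNReal.ofReal (1 / 5) * ENNReal.ofReal (23 / 25)) * hfun x := by ring
  rw [e3]
  congr 1
  rw [← ENNReal.ofReal_mul (by norm_num), ← ENNReal.ofReal_add (by norm_num) (by norm_num),
    ← ENNReal.ofReal_mul (by norm_num), ← ENNReal.ofReal_mul (by norm_num),
    ← ENNReal.ofReal_add (by norm_num) (by norm_num)]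
  congr 1
  norm_num

lemma lintegral_wt (x₀ : ℤ) (n : ℕ) :
    ∫⁻ ξ, wt hfun (population ξ x₀ n) ∂(offspringLaw mu) = ENNReal.ofReal (4 / 5) ^ n * hfun x₀ := by
  induction n with
  | zero =>
    simp only [population]
    rw [lintegral_const, measure_univ, mul_one, wt_single]
    simp
  | succ n ih =>
    rw [lintegral_wt_succ]
    have : ∀ η : ℤ →₀ ℕ, wt (meanWt mu hfun) η = ENNReal.ofReal (4 / 5) * wt hfun η := by
      intro η
      unfold wt
      rw [← ENNReal.tsum_mul_left]
      congr 1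
      ext y
      rw [meanWt_hfun]
      ring
    simp only [this]
    have hm : Measurable (fun ξ : ℕ × ℤ × ℕ → (ℤ →₀ ℕ) => wt hfun (population ξ x₀ n)) :=
      (measurable_of_countable (wt hfun)).comp (measurable_population x₀ n)
    rw [lintegral_const_mul _ hm, ih]
    ring

/-- The set `A` is bounded above: almost sure extinction in `A`. -/
lemma extProb_one {A : Set ℤ} {M : ℤ} (hA : ∀ y ∈ A, y ≤ M) (x₀ : ℤ) : extProb mu A x₀ = 1 := by
  have hm : ∀ n, Measurable (fun ξ : ℕ × ℤ × ℕ → (ℤ →₀ ℕ) => wt hfun (population ξ x₀ n)) :=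
    fun n => (measurable_of_countable (wt hfun)).comp (measurable_population x₀ n)
  have h0 : ∫⁻ ξ, ∑' n, wt hfun (population ξ x₀ n) ∂(offspringLaw mu) ≠ ∞ := by
    rw [lintegral_tsum (fun n => (hm n).aemeasurable)]
    simp only [lintegral_wt]
    rw [ENNReal.tsum_mul_right, ENNReal.tsum_geometric]
    apply ENNReal.mul_ne_top
    · rw [ENNReal.inv_ne_top]
      have : ENNReal.ofReal (4 / 5) < 1 := by
        rw [← ENNReal.ofReal_one]
        exact (ENNReal.ofReal_lt_ofReal_iff one_pos).mpr (by norm_num)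
      exact (tsub_pos_of_lt this).ne'
    · exact ENNReal.ofReal_ne_top
  have h1 : ∀ᵐ ξ ∂(offspringLaw mu), ∑' n, wt hfun (population ξ x₀ n) < ∞ :=
    ae_lt_top (Measurable.tsum hm) h0
  have h2 : ∀ᵐ ξ ∂(offspringLaw mu),
      ξ ∈ {ξ | ∃ N : ℕ, ∀ n, N ≤ n → ∀ y ∈ A, population ξ x₀ n y = 0} := by
    filter_upwards [h1] with ξ hξ
    have h2 := ENNReal.tendsto_atTop_zero_of_tsum_ne_top hξ.ne
    have hpos : 0 < hfun M := by
      unfold hfun
      exact ENNReal.ofReal_pos.mpr (by positivity)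
    have h3 := (tendsto_order.mp h2).2 (hfun M) hpos
    obtain ⟨τ, hτ⟩ := Filter.eventually_atTop.mp h3
    refine ⟨τ, fun n hn y hy => ?_⟩
    by_contra hne
    have h4 := hτ n hn
    have h5 : hfun M ≤ hfun y := by
      unfold hfun
      apply ENNReal.ofReal_le_ofReal
      exact zpow_le_zpow_right_of_le_one₀ (by norm_num) (by norm_num) (hA y hy)
    have h6 : hfun y ≤ wt hfun (population ξ x₀ n) := by
      unfold wt
      refine le_trans ?_ (ENNReal.le_tsum y)
      have : (1 : ℝ≥0∞) ≤ (population ξ x₀ n y : ℝ≥0∞) := by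
        exact_mod_cast Nat.one_le_iff_ne_zero.mpr hne
      calc hfun y = 1 * hfun y := (one_mul _).symm
        _ ≤ _ := by gcongr
    exact absurd (h4.trans_le (h5.trans h6)) (lt_irrefl _)
  unfold extProb
  rw [measureReal_def, prob_compl_aux h2]
  simp
where
  prob_compl_aux {S : Set (ℕ × ℤ × ℕ → (ℤ →₀ ℕ))} (h : ∀ᵐ ξ ∂(offspringLaw mu), ξ ∈ S) :
      offspringLaw mu S = 1 := by
    have h1 : offspringLaw mu S = offspringLaw mu Set.univ := by
      apply measure_congr
      filter_upwards [h] with ξ hξ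
      exact propext ⟨fun _ => trivial, fun _ => hξ⟩
    rw [h1, measure_univ]

lemma extVectors_subset : extVectors mu ⊆ {(fun _ => 0), (fun _ => 1)} := by
  rintro _ ⟨A, rfl⟩
  by_cases hA : ∀ m : ℤ, ∃ y ∈ A, m ≤ y
  · left
    funext x
    exact extProb_zero hA x
  · right
    push Not at hA
    obtain ⟨M, hM⟩ := hA
    funext x
    exact extProb_one (fun y hy => (hM y hy).le) x

end extinction

section fixedpoints

/-- `(2/5)^x`. -/
noncomputable def U (x : ℤ) : ℝ := (2 / 5 : ℝ) ^ x

/-- `(1/5)^x`. -/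
noncomputable def V (x : ℤ) : ℝ := (1 / 5 : ℝ) ^ x

/-- The positive part of `U - 2 V`. -/
noncomputable def m (x : ℤ) : ℝ := max 0 (U x - 2 * V x)

lemma U_pos (x : ℤ) : 0 < U x := by unfold U; positivity
lemma V_pos (x : ℤ) : 0 < V x := by unfold V; positivity

lemma U_succ (x : ℤ) : U (x + 1) = 2 / 5 * U x := by
  unfold U; rw [zpow_add₀ (by norm_num), zpow_one, mul_comm]

lemma U_pred (x : ℤ) : U (x - 1) = 5 / 2 * U x := by
  unfold U; rw [zpow_sub₀ (by norm_num), zpow_one]; ring

lemma V_succ (x : ℤ) : V (x + 1) = 1 / 5 * V x := by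
  unfold V; rw [zpow_add₀ (by norm_num), zpow_one, mul_comm]

lemma V_pred (x : ℤ) : V (x - 1) = 5 * V x := by
  unfold V; rw [zpow_sub₀ (by norm_num), zpow_one]; ring

lemma U_le_one {x : ℤ} (hx : 0 ≤ x) : U x ≤ 1 := by
  unfold U
  exact zpow_le_one_of_nonneg' hx
where
  zpow_le_one_of_nonneg' {x : ℤ} (hx : 0 ≤ x) : (2 / 5 : ℝ) ^ x ≤ 1 := by
    lift x to ℕ using hx
    rw [zpow_natCast]
    exact pow_le_one₀ (by norm_num) (by norm_num)

lemma U_sq_le {x : ℤ} (hx : 0 ≤ x) : U x ^ 2 ≤ V x := by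
  unfold U V
  lift x to ℕ using hx
  rw [zpow_natCast, zpow_natCast, ← pow_mul, mul_comm, pow_mul]
  exact pow_le_pow_left₀ (by norm_num) (by norm_num) _

lemma U_eq (x : ℤ) : U x = 2 ^ x * V x := by
  unfold U V
  rw [← mul_zpow]; norm_num

lemma nonneg_of_pos {x : ℤ} (h : 2 * V x < U x) : 0 ≤ x := by
  by_contra hx
  push Not at hx
  rw [U_eq] at h
  have h1 : (2 : ℝ) ^ x ≤ 1 := by
    have : (2 : ℝ) ^ x ≤ 2 ^ (0 : ℤ) := zpow_le_zpow_right₀ (by norm_num) hx.le
    simpa using this
  have h2 := V_pos x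
  nlinarith

lemma m_nonneg (x : ℤ) : 0 ≤ m x := le_max_left _ _

lemma m_le_U (x : ℤ) : m x ≤ U x := by
  unfold m
  have := U_pos x
  have := V_pos x
  exact max_le (by linarith) (by linarith)

lemma le_m (x : ℤ) : U x - 2 * V x ≤ m x := le_max_right _ _

lemma m_cases (x : ℤ) : m x = 0 ∨ (m x = U x - 2 * V x ∧ 2 * V x < U x) := by
  unfold m
  rcases le_or_gt (U x - 2 * V x) 0 with h | h
  · left; exact max_eq_left h
  · right; exact ⟨max_eq_right h.le, by linarith⟩

lemma m_le_one (x : ℤ) : m x ≤ 1 := by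
  rcases m_cases x with h | ⟨h, h2⟩
  · rw [h]; norm_num
  · exact (m_le_U x).trans (U_le_one (nonneg_of_pos h2))

lemma genFun_mono {z z' : ℤ → ℝ} (h0 : ∀ x, 0 ≤ z x) (h : ∀ x, z x ≤ z' x) (x : ℤ) :
    genFun mu z x ≤ genFun mu z' x := by
  rw [genFun_eq, genFun_eq]
  have h1 := h0 (x + 1)
  have h2 := h (x + 1)
  have h3 := h0 (x - 1)
  have h4 := h (x - 1)
  apply mul_le_mul
  · exact pow_le_pow_left₀ h1 h2 2
  · linarith
  · linarith
  · positivity

/-- The supersolution. -/
lemma super {t : ℝ} (ht : 0 ≤ t) (ht1 : t ≤ 1) (x : ℤ) :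
    genFun mu (fun y => 1 - t * m y) x ≤ 1 - t * m x := by
  rw [genFun_eq]
  set a := t * m (x + 1) with ha
  set b := t * m (x - 1) with hb
  have ha0 : 0 ≤ a := mul_nonneg ht (m_nonneg _)
  have hb0 : 0 ≤ b := mul_nonneg ht (m_nonneg _)
  have ha1 : a ≤ 1 := by
    calc a ≤ 1 * 1 := mul_le_mul ht1 (m_le_one _) (m_nonneg _) (by norm_num)
      _ = 1 := by norm_num
  have hb1 : b ≤ 1 := by
    calc b ≤ 1 * 1 := mul_le_mul ht1 (m_le_one _) (m_nonneg _) (by norm_num)
      _ = 1 := by norm_num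
  rcases m_cases x with h | ⟨h, h2⟩
  · rw [h, mul_zero, sub_zero]
    have h1 : (1 - a) ^ 2 ≤ 1 := pow_le_one₀ (by linarith) (by linarith)
    have h2 : 1 - 2 / 25 + 2 / 25 * (1 - b) ≤ 1 := by linarith
    have h3 : 0 ≤ 1 - 2 / 25 + 2 / 25 * (1 - b) := by linarith
    calc (1 - a) ^ 2 * (1 - 2 / 25 + 2 / 25 * (1 - b)) ≤ 1 * 1 :=
        mul_le_mul h1 h2 h3 (by norm_num)
      _ = 1 := by norm_num
  · rw [h]
    have hx := nonneg_of_pos h2
    have hU := U_pos x
    have hV := V_pos x
    have hUV := U_sq_le hx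
    have e1 : t * (2 / 5 * U x - 2 / 5 * V x) ≤ a := by
      have := le_m (x + 1)
      rw [U_succ, V_succ] at this
      rw [ha]
      apply mul_le_mul_of_nonneg_left _ ht
      linarith
    have e2 : t * (5 / 2 * U x - 10 * V x) ≤ b := by
      have := le_m (x - 1)
      rw [U_pred, V_pred] at this
      rw [hb]
      apply mul_le_mul_of_nonneg_left _ ht
      linarith
    have e3 : a ≤ t * (2 / 5 * U x) := by
      have := m_le_U (x + 1)
      rw [U_succ] at this
      exact mul_le_mul_of_nonneg_left this ht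
    have e4 : b ≤ t * (5 / 2 * U x) := by
      have := m_le_U (x - 1)
      rw [U_pred] at this
      exact mul_le_mul_of_nonneg_left this ht
    have e5 : a ^ 2 + 4 / 25 * a * b ≤ 8 / 25 * (t ^ 2 * U x ^ 2) := by
      have h5 : a ^ 2 ≤ (t * (2 / 5 * U x)) ^ 2 := pow_le_pow_left₀ ha0 e3 2
      have h6 : a * b ≤ (t * (2 / 5 * U x)) * (t * (5 / 2 * U x)) :=
        mul_le_mul e3 e4 hb0 (by positivity)
      nlinarith
    have e6 : t ^ 2 * U x ^ 2 ≤ t * V x := by
      have h7 : t ^ 2 ≤ t := by nlinarith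
      exact mul_le_mul h7 hUV (by positivity) ht
    have e7 : (1 - a) ^ 2 * (1 - 2 / 25 + 2 / 25 * (1 - b)) ≤
        1 - 2 * a - 2 / 25 * b + a ^ 2 + 4 / 25 * a * b := by
      have : 0 ≤ a ^ 2 * b := by positivity
      nlinarith
    have e8 : 0 ≤ t * V x := by positivity
    nlinarith

/-- The approximations. -/
noncomputable def Z (t : ℝ) : ℕ → ℤ → ℝ
  | 0 => fun x => Real.exp (-(t * U x))
  | n + 1 => genFun mu (Z t n)

lemma Z_zero_le {t : ℝ} (ht : 0 ≤ t) (ht1 : t ≤ 1) (x : ℤ) : Z t 0 x ≤ 1 - t * m x := by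
  simp only [Z]
  have hU := U_pos x
  have hV := V_pos x
  rcases m_cases x with h | ⟨h, h2⟩
  · rw [h, mul_zero, sub_zero, Real.exp_le_one_iff]
    have : 0 ≤ t * U x := by positivity
    linarith
  · rw [h]
    have hx := nonneg_of_pos h2
    have hUV := U_sq_le hx
    have hU1 := U_le_one hx
    have hs : 0 ≤ t * U x := by positivity
    have hs1 : t * U x ≤ 1 := by nlinarith
    have h3 := Real.abs_exp_sub_one_sub_id_le (x := -(t * U x)) (by rw [abs_neg, abs_of_nonneg hs]; exact hs1)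
    have h4 := (abs_le.mp h3).2
    have e6 : t ^ 2 * U x ^ 2 ≤ t * V x := by
      have h7 : t ^ 2 ≤ t := by nlinarith
      exact mul_le_mul h7 hUV (by positivity) ht
    have e8 : 0 ≤ t * V x := by positivity
    nlinarith

/-- The subsolution. -/
lemma sub_sol {t : ℝ} (x : ℤ) : Z t 0 x ≤ Z t 1 x := by
  show Real.exp (-(t * U x)) ≤ genFun mu (fun x => Real.exp (-(t * U x))) x
  rw [genFun_eq, U_succ, U_pred]
  have hconv := convexOn_exp.2 (Set.mem_univ (0 : ℝ)) (Set.mem_univ (-(t * (5 / 2 * U x))))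
    (show (0 : ℝ) ≤ 1 - 2 / 25 by norm_num) (show (0 : ℝ) ≤ 2 / 25 by norm_num) (by norm_num)
  simp only [smul_eq_mul, mul_zero, zero_add, Real.exp_zero, mul_one] at hconv
  calc Real.exp (-(t * U x)) = Real.exp (-(t * (2 / 5 * U x))) ^ 2 *
      Real.exp (2 / 25 * -(t * (5 / 2 * U x))) := by
        rw [← Real.exp_nat_mul, ← Real.exp_add]
        congr 1
        push_cast
        ring
    _ ≤ _ := mul_le_mul_of_nonneg_left hconv (by positivity)

lemma Z_nonneg (t : ℝ) (n : ℕ) (x : ℤ) : 0 ≤ Z t n x := by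
  induction n generalizing x with
  | zero => exact (Real.exp_pos _).le
  | succ n ih =>
    show 0 ≤ genFun mu (Z t n) x
    rw [genFun_eq]
    have := ih (x - 1)
    apply mul_nonneg (sq_nonneg _)
    linarith

lemma Z_mono {t : ℝ} (n : ℕ) (x : ℤ) : Z t n x ≤ Z t (n + 1) x := by
  induction n generalizing x with
  | zero => exact sub_sol x
  | succ n ih => exact genFun_mono (Z_nonneg t n) ih x

lemma Z_le {t : ℝ} (ht : 0 ≤ t) (ht1 : t ≤ 1) (n : ℕ) (x : ℤ) : Z t n x ≤ 1 - t * m x := by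
  induction n generalizing x with
  | zero => exact Z_zero_le ht ht1 x
  | succ n ih => exact (genFun_mono (Z_nonneg t n) ih x).trans (super ht ht1 x)

/-- The fixed point with parameter `t`. -/
noncomputable def fp (t : ℝ) (x : ℤ) : ℝ := ⨆ n, Z t n x

lemma fp_tendsto {t : ℝ} (ht : 0 ≤ t) (ht1 : t ≤ 1) (x : ℤ) :
    Filter.Tendsto (fun n => Z t n x) Filter.atTop (nhds (fp t x)) := by
  apply tendsto_atTop_ciSup
  · exact monotone_nat_of_le_succ fun n => Z_mono n x
  · exact ⟨1 - t * m x, by rintro _ ⟨n, rfl⟩; exact Z_le ht ht1 n x⟩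

lemma fp_le {t : ℝ} (ht : 0 ≤ t) (ht1 : t ≤ 1) (x : ℤ) : fp t x ≤ 1 - t * m x :=
  le_of_tendsto' (fp_tendsto ht ht1 x) fun n => Z_le ht ht1 n x

lemma le_fp {t : ℝ} (ht : 0 ≤ t) (ht1 : t ≤ 1) (x : ℤ) : Real.exp (-(t * U x)) ≤ fp t x :=
  ge_of_tendsto' (fp_tendsto ht ht1 x) fun n =>
    (monotone_nat_of_le_succ (fun n => Z_mono (t := t) n x)) (Nat.zero_le n)

lemma fp_fixed {t : ℝ} (ht : 0 ≤ t) (ht1 : t ≤ 1) : fp t ∈ fixedPoints mu := by
  refine ⟨fun x => ⟨?_, ?_⟩, fun x => ?_⟩
  · exact (Real.exp_pos _).le.trans (le_fp ht ht1 x)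
  · have := fp_le ht ht1 x
    have := mul_nonneg ht (m_nonneg x)
    linarith
  · have h1 : Filter.Tendsto (fun n => Z t (n + 1) x) Filter.atTop (nhds (fp t x)) :=
      (Filter.tendsto_add_atTop_iff_nat 1).mpr (fp_tendsto ht ht1 x)
    have h2 : Filter.Tendsto (fun n => Z t (n + 1) x) Filter.atTop (nhds (genFun mu (fp t) x)) := by
      have h3 : ∀ n, Z t (n + 1) x = Z t n (x + 1) ^ 2 * (1 - 2 / 25 + 2 / 25 * Z t n (x - 1)) :=
        fun n => genFun_eq _ _
      simp only [h3]
      rw [genFun_eq]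
      exact ((fp_tendsto ht ht1 (x + 1)).pow 2).mul
        (((fp_tendsto ht ht1 (x - 1)).const_mul _).const_add _)
    exact tendsto_nhds_unique h2 h1

lemma fp_inj_aux {s t : ℝ} (hs : 0 < s) (hst : s < t) (ht1 : t ≤ 1) : fp s ≠ fp t := by
  intro h
  have h1 : ∀ x : ℤ, t * (U x - 2 * V x) ≤ s * U x := by
    intro x
    have e1 := fp_le (hs.le.trans hst.le) ht1 x
    have e2 := le_fp hs.le (hst.le.trans ht1) x
    rw [h] at e2
    have e3 := Real.add_one_le_exp (-(s * U x))
    have e4 := mul_le_mul_of_nonneg_left (le_m x) (hs.le.trans hst.le)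
    linarith
  -- take x large
  obtain ⟨n, hn⟩ := pow_unbounded_of_one_lt (2 * t / (t - s)) one_lt_two
  have h2 := h1 (n : ℤ)
  rw [U_eq] at h2
  have hV := V_pos (n : ℤ)
  rw [zpow_natCast] at h2
  have h3 : t * (2 ^ n - 2) ≤ s * 2 ^ n := by
    have : V n * (t * (2 ^ n - 2)) ≤ V n * (s * 2 ^ n) := by nlinarith
    exact le_of_mul_le_mul_left this hV
  rw [div_lt_iff₀ (by linarith)] at hn
  nlinarith

end fixedpoints

/-- **Main result.**  There is a branching random walk in the class `C` with only finitely many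
extinction probability vectors and uncountably many other fixed points. -/
theorem result : ∃ (X : Type) (_ : Countable X) (_ : Infinite X) (μ : X → PMF (X →₀ ℕ)),
    InC μ ∧ (extVectors μ).Finite ∧ ¬ (fixedPoints μ \ extVectors μ).Countable := by
  have hfin : (extVectors mu).Finite := (Set.toFinite _).subset extVectors_subset
  refine ⟨ℤ, inferInstance, inferInstance, mu, ⟨irreducible, quasiTransitive, ?_⟩, hfin, ?_⟩
  · intro x y
    exact extProb_one (M := y) (by simp) x
  · intro hc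
    have h1 : (fixedPoints mu).Countable := by
      have : fixedPoints mu ⊆ (fixedPoints mu \ extVectors mu) ∪ extVectors mu := by
        intro z hz
        by_cases h : z ∈ extVectors mu
        · exact Or.inr h
        · exact Or.inl ⟨hz, h⟩
      exact (hc.union hfin.countable).mono this
    have hinj : Set.InjOn fp (Set.Ioo 0 1) := by
      intro s hs t ht h
      by_contra hne
      rcases lt_or_gt_of_ne hne with h2 | h2
      · exact fp_inj_aux hs.1 h2 ht.2.le h
      · exact fp_inj_aux ht.1 h2 hs.2.le h.symm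
    have hmaps : Set.MapsTo fp (Set.Ioo 0 1) (fixedPoints mu) := fun t ht =>
      fp_fixed ht.1.le ht.2.le
    have h2 : (Set.Ioo (0 : ℝ) 1).Countable := hmaps.countable_of_injOn hinj h1
    rw [← Cardinal.le_aleph0_iff_set_countable, Cardinal.mk_Ioo_real one_pos] at h2
    exact absurd h2 (not_le.mpr Cardinal.aleph0_lt_continuum)

end Pool.Agent.Results.MP_c15531_pr.TranslationInvariant
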